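import Pool.Agent.N929.OM.Stm
import Pool.Agent.N945.ON.EDG

/-!
Project OM, leaf EDG: the number of edges of a good pattern in a general domain (after helper945).
By helper398.
-/

set_option autoImplicit false

namespace Pool.Agent.N398.OM

open Finset
open Pool.Agent.N929.ON hiding flip edg Good Lng S_EDG
open Pool.Agent.N929.OM
open Pool.Agent.N945.ON hiding R fin_all edg_eq R_flip edg_flip

/-- the other states -/
def R (V : Finset (ℤ × ℤ)) (f : ℤ × ℤ) (σ : ℤ × ℤ → Bool) : Set St :=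
  {s | Val σ s ∧ (s.1 ∈ V ∨ rt s ∈ V) ∧ s.1 ≠ f ∧ rt s ≠ f}

theorem fin_all (V : Finset (ℤ × ℤ)) : {s : St | s.1 ∈ V ∨ rt s ∈ V}.Finite := by
  have h1 : ((V ×ˢ (univ : Finset (Fin 6)) : Finset St) : Set St).Finite :=
    Finset.finite_toSet _
  have h2 : ((fun s : St => ((s.1 - dir s.2, s.2) : St)) ''
      ((V ×ˢ (univ : Finset (Fin 6)) : Finset St) : Set St)).Finite := h1.image _
  refine (h1.union h2).subset ?_
  rintro ⟨g, k⟩ (h | h)
  · left
    simp only [coe_product, Set.mem_prod, mem_coe, coe_univ, Set.mem_univ, and_true]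
    exact h
  · right
    refine ⟨(g + dir k, k), ?_, ?_⟩
    · simp only [coe_product, Set.mem_prod, mem_coe, coe_univ, Set.mem_univ, and_true]
      exact h
    · simp

theorem edg_eq {V : Finset (ℤ × ℤ)} {f : ℤ × ℤ} (hf : f ∈ V) (σ : ℤ × ℤ → Bool) :
    edg V σ = (T f σ).ncard + (R V f σ).ncard := by
  have h1 : {s : St | Val σ s ∧ Inn V s} = T f σ ∪ R V f σ := by
    ext s
    constructor
    · rintro ⟨h1, h2⟩
      by_cases h3 : s.1 = f ∨ rt s = f
      · exact Or.inl ⟨h1, h3⟩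
      · push Not at h3
        exact Or.inr ⟨h1, h2, h3.1, h3.2⟩
    · rintro (⟨h1, h2⟩ | ⟨h1, h2, -, -⟩)
      · refine ⟨h1, ?_⟩
        rcases h2 with h2 | h2
        · left
          rw [h2]
          exact hf
        · right
          rw [h2]
          exact hf
      · exact ⟨h1, h2⟩
  have hT : (T f σ).Finite := by
    refine (fin_all V).subset ?_
    rintro s ⟨-, h2 | h2⟩
    · left
      rw [h2]
      exact hf
    · right
      rw [h2]
      exact hf
  have hR : (R V f σ).Finite := (fin_all V).subset fun s hs => hs.2.1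
  unfold edg
  rw [h1, Set.ncard_union_eq ?_ hT hR]
  rw [Set.disjoint_left]
  rintro s ⟨-, h2⟩ ⟨-, -, h3, h4⟩
  rcases h2 with h2 | h2
  · exact h3 h2
  · exact h4 h2

theorem R_flip (V : Finset (ℤ × ℤ)) (f : ℤ × ℤ) (σ : ℤ × ℤ → Bool) :
    R V f (Pool.Agent.N929.ON.flip f σ) = R V f σ := by
  ext s
  constructor
  · rintro ⟨⟨h1, h2⟩, h3, h4, h5⟩
    rw [flip_of_ne σ h4] at h1
    rw [flip_of_ne σ h5] at h2
    exact ⟨⟨h1, h2⟩, h3, h4, h5⟩
  · rintro ⟨⟨h1, h2⟩, h3, h4, h5⟩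
    refine ⟨⟨?_, ?_⟩, h3, h4, h5⟩
    · rw [flip_of_ne σ h4]
      exact h1
    · rw [flip_of_ne σ h5]
      exact h2

theorem cnt_false2 {f : ℤ × ℤ} {σ : ℤ × ℤ → Bool} (h : σ f = false)
    (v0 : σ (f + dir 0) = false)
    (v1 : σ (f + dir 1) = false) (v2 : σ (f + dir 2) = false) (v3 : σ (f + dir 3) = false)
    (v4 : σ (f + dir 4) = true) (v5 : σ (f + dir 5) = true) :
    (T f (Pool.Agent.N929.ON.flip f σ)).ncard = 4 ∧ (T f σ).ncard = 2 := by
  have hft : Pool.Agent.N929.ON.flip f σ f = true := by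
    rw [flip_self, h]
    rfl
  obtain ⟨e0, e1, e2, e3, e4, e5⟩ := sub_dir f
  constructor
  · rw [T_true hft]
    simp only [flip_of_ne σ (ne1 _ _), Finset.card_filter, Fin.sum_univ_six, v0, v1, v2, v3, v4, v5]
    simp
  · rw [T_false h]
    simp only [Finset.card_filter, Fin.sum_univ_six, e0, e1, e2, e3, e4, e5, v0, v1, v2, v3, v4, v5]
    simp

theorem cnt_true2 {f : ℤ × ℤ} {σ : ℤ × ℤ → Bool} (h : σ f = true) (v0 : σ (f + dir 0) = true)
    (v1 : σ (f + dir 1) = true) (v2 : σ (f + dir 2) = true) (v3 : σ (f + dir 3) = true)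
    (v4 : σ (f + dir 4) = false) (v5 : σ (f + dir 5) = false) :
    (T f (Pool.Agent.N929.ON.flip f σ)).ncard = 4 ∧ (T f σ).ncard = 2 := by
  have hft : Pool.Agent.N929.ON.flip f σ f = false := by
    rw [flip_self, h]
    rfl
  obtain ⟨e0, e1, e2, e3, e4, e5⟩ := sub_dir f
  constructor
  · rw [T_false hft]
    simp only [flip_of_ne σ (ne2 _ _), Finset.card_filter, Fin.sum_univ_six, e0, e1, e2, e3, e4, e5,
      v0, v1, v2, v3, v4, v5]
    simp
  · rw [T_true h]
    simp only [Finset.card_filter, Fin.sum_univ_six, v0, v1, v2, v3, v4, v5]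
    simp

theorem edg_flip : S_EDG := by
  intro V σ s hs hf hG hL
  rw [edg_eq hf, edg_eq hf, R_flip]
  have key : (T (mid s) (Pool.Agent.N929.ON.flip (mid s) σ)).ncard = 4 ∧
      (T (mid s) σ).ncard = 2 := by
    obtain ⟨⟨x, y⟩, k⟩ := s
    obtain ⟨hp, hm⟩ := hG
    simp only at hs
    rcases hs with rfl | rfl | rfl
    · have hff : σ (mid ((x, y), 0)) = false := by simpa [Lng] using hL
      refine cnt_false hff (hm _ ?_) (hm _ ?_) (hp _ ?_) (hp _ ?_) (hm _ ?_) (hm _ ?_) <;>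
        simp [mns, pls, mid, dir, Prod.ext_iff] <;> omega
    · have hff : σ (mid ((x, y), 2)) = false := by simpa [Lng] using hL
      refine cnt_false2 hff (hm _ ?_) (hm _ ?_) (hm _ ?_) (hm _ ?_) (hp _ ?_) (hp _ ?_) <;>
        simp [mns, pls, mid, dir, Prod.ext_iff] <;> omega
    · have hff : σ (mid ((x, y), 4)) = true := by simpa [Lng] using hL
      refine cnt_true2 hff (hp _ ?_) (hp _ ?_) (hp _ ?_) (hp _ ?_) (hm _ ?_) (hm _ ?_) <;>
        simp [mns, pls, mid, dir, Prod.ext_iff] <;> omega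
  omega

end Pool.Agent.N398.OM
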